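import Pool.Agent.Lib.MP_ef2672_gt_Eutaxy.Perturb
import Pool.Agent.Lib.MP_ef2672_gt_Tauber.Lower

/-!
Many nearly minimal vectors in each direction of test matrices.
-/

namespace Pool.Agent.Lib.MP_ef2672_gt_Eutaxy

open Pool.Agent.Lib.MP_ef2672_gt_Tauber

lemma trace_bound {n : ℕ} (H : Matrix (Fin n) (Fin n) ℝ) (hH : H ∈ unitSym n) :
    |H.trace| ≤ n := by
  classical
  unfold Matrix.trace
  refine (Finset.abs_sum_le_sum_abs _ _).trans ?_
  have h : ∀ i ∈ (Finset.univ : Finset (Fin n)), |Matrix.diag H i| ≤ 1 := by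
    intro i _
    have h1 := hH.2 (Pi.single i 1)
    simpa [Matrix.mulVec_single_one] using h1
  refine (Finset.sum_le_sum h).trans ?_
  simp

/-- For each test matrix there are exponentially many nearly minimal vectors on which it is
not much larger than its average. -/
theorem count_le {n : ℕ} (hn : 0 < n) (A : Matrix (Fin n) (Fin n) ℝ) (hA : A.det ≠ 0)
    {ε : ℝ} (hε : 0 < ε) (hε1 : ε ≤ 1) (hopt : (1 - ε ^ 2 / 20) * gamma n ≤ inv A)
    (H : Matrix (Fin n) (Fin n) ℝ) (hH : H ∈ unitSym n) :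
    Real.exp (ε ^ 2 / 20 * n) ≤
      {w : Fin n → ℤ | (w ≠ 0 ∧ normSq A w < (1 + ε) * minSq A) ∧
        dotProduct (vec A w) (H.mulVec (vec A w)) < (H.trace / n + ε) * normSq A w}.ncard := by
  classical
  have hn0 : (0 : ℝ) < n := by exact_mod_cast hn
  set m := minSq A with hm
  have hA0 : 0 < |A.det| := abs_pos.2 hA
  have hP : 0 < |A.det| ^ ((2 : ℝ) / n) := Real.rpow_pos_of_pos hA0 _
  have hγ : 0 < gamma n := lt_of_lt_of_le (by positivity) (gamma_ge hn)
  have hε2 : ε ^ 2 ≤ 1 := by nlinarith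
  have hinvpos : 0 < inv A := lt_of_lt_of_le (by nlinarith) hopt
  have hmeq : m = inv A * |A.det| ^ ((2 : ℝ) / n) := by
    unfold inv; rw [div_mul_cancel₀ _ hP.ne']
  have hm0 : 0 < m := by rw [hmeq]; positivity
  -- the perturbation
  set t : ℝ := ε / (2 + 3 * ε) with ht
  have ht0 : 0 < t := by positivity
  have htε : t * (2 + 3 * ε) = ε := by rw [ht]; field_simp
  have ht5 : ε / 5 ≤ t := by
    rw [ht]
    exact div_le_div_of_nonneg_left hε.le (by positivity) (by linarith)
  have ht2 : 2 * t < 1 := by nlinarith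
  set H0 : Matrix (Fin n) (Fin n) ℝ := H - (H.trace / n) • (1 : Matrix (Fin n) (Fin n) ℝ) with hH0
  have hH0t : H0.transpose = H0 := by
    rw [hH0, Matrix.transpose_sub, Matrix.transpose_smul, Matrix.transpose_one, hH.1]
  have hquad : ∀ x : Fin n → ℝ, dotProduct x (H0.mulVec x) =
      dotProduct x (H.mulVec x) - H.trace / n * dotProduct x x := by
    intro x
    rw [hH0, Matrix.sub_mulVec, dotProduct_sub, Matrix.smul_mulVec, Matrix.one_mulVec,
      dotProduct_smul, smul_eq_mul]
  have htr1 : |H.trace / n| ≤ 1 := by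
    rw [abs_div, abs_of_pos hn0, div_le_one hn0]
    exact trace_bound H hH
  have hH0b : ∀ x : Fin n → ℝ, |dotProduct x (H0.mulVec x)| ≤ 2 * dotProduct x x := by
    intro x
    rw [hquad]
    refine (abs_sub _ _).trans ?_
    have h1 := hH.2 x
    have h2 : |H.trace / n * dotProduct x x| ≤ dotProduct x x := by
      rw [abs_mul, abs_of_nonneg (dotProduct_self_nonneg' x)]
      exact mul_le_of_le_one_left (dotProduct_self_nonneg' x) htr1
    linarith
  have hH0tr : H0.trace = 0 := by
    rw [hH0, Matrix.trace_sub, Matrix.trace_smul, Matrix.trace_one, Fintype.card_fin, smul_eq_mul]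
    field_simp
    ring
  obtain ⟨A', hA'0, hA'1, hA'⟩ := exists_perturb A hA H0 hH0t hH0b hH0tr ht0.le ht2
  set r : ℝ := (1 + t * ε) * m with hr
  -- short vectors of the perturbed lattice
  set S : Set (Fin n → ℤ) := {w : Fin n → ℤ | (w ≠ 0 ∧ normSq A w < (1 + ε) * m) ∧
        dotProduct (vec A w) (H.mulVec (vec A w)) < (H.trace / n + ε) * normSq A w} with hS
  have hSfin : S.Finite := (finite_short A hA ((1 + ε) * m)).subset fun w hw => hw.1
  have hsub : {w : Fin n → ℤ | w ≠ 0 ∧
      ∑ i, (Matrix.mulVec A' (fun j => (w j : ℝ))) i ^ 2 < r} ⊆ S := by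
    rintro w ⟨hw0, hw⟩
    have hw' : normSq A w + t * dotProduct (vec A w) (H0.mulVec (vec A w)) < r := by
      rw [← hA' w]; exact hw
    have hmin : m ≤ normSq A w := minSq_le A w hw0
    have hb := (abs_le.1 (hH0b (vec A w))).1
    rw [← normSq_eq] at hb
    refine ⟨⟨hw0, ?_⟩, ?_⟩
    · by_contra hcon
      push Not at hcon
      have h1 : (1 - 2 * t) * normSq A w < r := by nlinarith
      have h2 : (1 - 2 * t) * ((1 + ε) * m) < r :=
        lt_of_le_of_lt (mul_le_mul_of_nonneg_left hcon (by linarith)) h1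
      have h3 : r ≤ (1 - 2 * t) * ((1 + ε) * m) := by
        have h4 : (1 - 2 * t) * ((1 + ε) * m) - r = (ε - t * (2 + 3 * ε)) * m := by
          rw [hr]; ring
        rw [htε, sub_self, zero_mul] at h4
        linarith
      linarith
    · by_contra hcon
      push Not at hcon
      have h1 : ε * normSq A w ≤ dotProduct (vec A w) (H0.mulVec (vec A w)) := by
        rw [hquad, ← normSq_eq]; linarith
      have h2 : (1 + t * ε) * m ≤ (1 + t * ε) * normSq A w :=
        mul_le_mul_of_nonneg_left hmin (by positivity)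
      have h3 : t * (ε * normSq A w) ≤ t * dotProduct (vec A w) (H0.mulVec (vec A w)) :=
        mul_le_mul_of_nonneg_left h1 ht0.le
      rw [← hr] at h2
      linarith
  have hNle : nShort A' r ≤ S.ncard := Set.ncard_le_ncard hsub hSfin
  have hexp := expurgate hn A' hA'0 r
  set N : ℝ := ((max 1 S.ncard : ℕ) : ℝ) with hN
  have hN1 : 1 ≤ N := by rw [hN]; exact_mod_cast le_max_left 1 _
  have hN0 : 0 < N := by linarith
  have h1 : r ≤ gamma n * (|A.det| * N) ^ ((2 : ℝ) / n) := by
    refine hexp.trans ?_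
    refine mul_le_mul_of_nonneg_left ?_ hγ.le
    refine Real.rpow_le_rpow (by positivity) ?_ (by positivity)
    refine mul_le_mul hA'1 ?_ (by positivity) hA0.le
    rw [hN]
    exact_mod_cast max_le_max le_rfl hNle
  rw [Real.mul_rpow hA0.le hN0.le] at h1
  have h2 : (1 + t * ε) * (1 - ε ^ 2 / 20) ≤ N ^ ((2 : ℝ) / n) := by
    have h3 : (1 + t * ε) * ((1 - ε ^ 2 / 20) * gamma n * |A.det| ^ ((2 : ℝ) / n)) ≤
        gamma n * (|A.det| ^ ((2 : ℝ) / n) * N ^ ((2 : ℝ) / n)) := by
      refine le_trans ?_ h1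
      rw [hr, hmeq]
      refine mul_le_mul_of_nonneg_left ?_ (by positivity)
      exact mul_le_mul_of_nonneg_right hopt hP.le
    have h4 : ((1 + t * ε) * (1 - ε ^ 2 / 20)) * (gamma n * |A.det| ^ ((2 : ℝ) / n)) ≤
        N ^ ((2 : ℝ) / n) * (gamma n * |A.det| ^ ((2 : ℝ) / n)) := by linarith
    exact le_of_mul_le_mul_right h4 (by positivity)
  have h3 : Real.exp (ε ^ 2 / 10) ≤ N ^ ((2 : ℝ) / n) := by
    refine le_trans ?_ h2
    set x := ε ^ 2 with hx
    have hx0 : 0 < x := by positivity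
    have h5 : Real.exp (x / 10) ≤ 1 + x / 10 + (x / 10) ^ 2 := by
      have := Real.abs_exp_sub_one_sub_id_le (x := x / 10) (by rw [abs_of_pos (by positivity)]; linarith)
      have := (abs_le.1 this).2
      linarith
    have h6 : x / 5 ≤ t * ε := by
      have := mul_le_mul_of_nonneg_right ht5 hε.le
      rw [hx]; nlinarith
    nlinarith
  have h4 : Real.exp (ε ^ 2 / 20 * n) ≤ N := by
    have h5 := Real.rpow_le_rpow (Real.exp_pos _).le h3 (by positivity : (0 : ℝ) ≤ n / 2)
    rw [← Real.rpow_mul hN0.le, ← Real.exp_mul] at h5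
    have h6 : (2 : ℝ) / n * (n / 2) = 1 := by field_simp
    rw [h6, Real.rpow_one] at h5
    have h7 : ε ^ 2 / 10 * ((n : ℝ) / 2) = ε ^ 2 / 20 * n := by ring
    rwa [h7] at h5
  have h5 : 1 < N := lt_of_lt_of_le (Real.one_lt_exp_iff.2 (by positivity)) h4
  have h6 : N = (S.ncard : ℝ) := by
    rw [hN] at h5 ⊢
    have h7 : 1 < max 1 S.ncard := by exact_mod_cast h5
    have h8 : max 1 S.ncard = S.ncard := max_eq_right (by omega)
    rw [h8]
  rw [← h6]
  exact h4

end Pool.Agent.Lib.MP_ef2672_gt_Eutaxy
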