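import Pool.Agent.Lib.MP_ef2672_gt_Eutaxy.Minimax
import Pool.Agent.Lib.MP_ef2672_gt_Eutaxy.Count

/-!
Near-optimal lattices are approximately eutactic, with exponentially spread weights.
-/

namespace Pool.Agent.Lib.MP_ef2672_gt_Eutaxy

open Pool.Agent.Lib.MP_ef2672_gt_Tauber

theorem eutaxy {n : ℕ} (hn : 0 < n) (A : Matrix (Fin n) (Fin n) ℝ) (hA : A.det ≠ 0)
    {ε : ℝ} (hε : 0 < ε) (hε1 : ε ≤ 1) (hopt : (1 - ε ^ 2 / 20) * gamma n ≤ inv A) :
    ∃ (S : Finset (Fin n → ℤ)) (p : (Fin n → ℤ) → ℝ),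
      (∀ w ∈ S, w ≠ 0 ∧ normSq A w < (1 + ε) * minSq A) ∧
      (∀ w ∈ S, 0 ≤ p w ∧ p w ≤ Real.exp (-(ε ^ 2 / 20 * n))) ∧
      ∑ w ∈ S, p w = 1 ∧
      ∀ H ∈ unitSym n, |∑ w ∈ S, p w * (dotProduct (vec A w) (H.mulVec (vec A w)) / normSq A w) -
        H.trace / n| ≤ ε := by
  classical
  have hn0 : (0 : ℝ) < n := by exact_mod_cast hn
  have hfin := finite_short A hA ((1 + ε) * minSq A)
  set S : Finset (Fin n → ℤ) := hfin.toFinset with hS
  have hmem : ∀ w, w ∈ S ↔ w ≠ 0 ∧ normSq A w < (1 + ε) * minSq A := fun w => by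
    rw [hS, Set.Finite.mem_toFinset]; rfl
  -- the minimum is positive
  have hγ : 0 < gamma n := lt_of_lt_of_le (by positivity) (gamma_ge hn)
  have hε2 : ε ^ 2 ≤ 1 := by nlinarith
  have hinvpos : 0 < inv A := lt_of_lt_of_le (mul_pos (by linarith) hγ) hopt
  have hm0 : 0 < minSq A := by
    rcases (minSq_nonneg A).eq_or_lt with h | h
    · unfold inv at hinvpos
      rw [← h, zero_div] at hinvpos
      exact absurd hinvpos (lt_irrefl _)
    · exact h
  have hpos : ∀ w, w ≠ 0 → 0 < normSq A w := fun w hw => lt_of_lt_of_le hm0 (minSq_le A w hw)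
  let M : S → Fin n → Fin n → ℝ := fun s i j =>
    vec A s.1 i * vec A s.1 j / normSq A s.1 - (if i = j then 1 / (n : ℝ) else 0)
  have hM : ∀ s i j, M s i j = M s j i := by
    intro s i j
    simp only [M]
    rw [mul_comm (vec A s.1 i)]
    congr 1
    by_cases hij : i = j
    · rw [if_pos hij, if_pos hij.symm]
    · rw [if_neg hij, if_neg (Ne.symm hij)]
  have hpair : ∀ (s : S) (H : Matrix (Fin n) (Fin n) ℝ), pair (M s) H =
      dotProduct (vec A s.1) (H.mulVec (vec A s.1)) / normSq A s.1 - H.trace / n := by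
    intro s H
    rw [quad_eq_pair]
    simp only [pair, M, sub_mul, Finset.sum_sub_distrib]
    congr 1
    · rw [Finset.sum_div]
      refine Finset.sum_congr rfl fun i _ => ?_
      rw [Finset.sum_div]
      refine Finset.sum_congr rfl fun j _ => ?_
      ring
    · simp only [ite_mul, zero_mul, Finset.sum_ite_eq, Finset.mem_univ, if_true]
      rw [← Finset.mul_sum]
      unfold Matrix.trace
      simp only [Matrix.diag_apply]
      ring
  have h : ∀ H ∈ unitSym n, ∃ p ∈ weights S (Real.exp (-(ε ^ 2 / 20 * n))),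
      ∑ s, p s * pair (M s) H ≤ ε := by
    intro H hH
    have hcount := count_le hn A hA hε hε1 hopt H hH
    set T : Set (Fin n → ℤ) := {w : Fin n → ℤ | (w ≠ 0 ∧ normSq A w < (1 + ε) * minSq A) ∧
        dotProduct (vec A w) (H.mulVec (vec A w)) < (H.trace / n + ε) * normSq A w} with hT
    set T' : Finset S := Finset.univ.filter fun s : S => s.1 ∈ T with hT'
    have hcard : T.ncard = T'.card := by
      have h1 : T = ((T'.map (Function.Embedding.subtype _) : Finset (Fin n → ℤ)) :
          Set (Fin n → ℤ)) := by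
        ext w
        simp only [hT', Finset.coe_map, Set.mem_image, Finset.mem_coe, Finset.mem_filter,
          Finset.mem_univ, true_and, Function.Embedding.subtype_apply]
        constructor
        · intro hw
          exact ⟨⟨w, (hmem w).2 hw.1⟩, hw, rfl⟩
        · rintro ⟨s, hs, rfl⟩
          exact hs
      rw [h1, Set.ncard_coe_finset, Finset.card_map]
    set N : ℝ := (T'.card : ℝ) with hN
    have hNexp : Real.exp (ε ^ 2 / 20 * n) ≤ N := by rw [hN, ← hcard]; exact hcount
    have hN0 : 0 < N := lt_of_lt_of_le (Real.exp_pos _) hNexp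
    refine ⟨fun s => if s ∈ T' then 1 / N else 0, ⟨fun s => ⟨?_, ?_⟩, ?_⟩, ?_⟩
    · show 0 ≤ (if s ∈ T' then 1 / N else 0)
      split_ifs
      · positivity
      · exact le_rfl
    · show (if s ∈ T' then 1 / N else 0) ≤ _
      split_ifs
      · rw [Real.exp_neg, one_div]
        exact inv_anti₀ (Real.exp_pos _) hNexp
      · exact (Real.exp_pos _).le
    · show ∑ s, (if s ∈ T' then 1 / N else 0) = 1
      rw [Finset.sum_ite_mem, Finset.univ_inter, Finset.sum_const, nsmul_eq_mul, ← hN]
      field_simp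
    · show ∑ s, (if s ∈ T' then 1 / N else 0) * pair (M s) H ≤ ε
      have h2 : ∀ s : S, (if s ∈ T' then 1 / N else 0) * pair (M s) H ≤
          (if s ∈ T' then 1 / N else 0) * ε := by
        intro s
        split_ifs with hs
        · refine mul_le_mul_of_nonneg_left ?_ (by positivity)
          have hs' : s.1 ∈ T := (Finset.mem_filter.1 hs).2
          have hp := hpos s.1 hs'.1.1
          have h3 := hs'.2
          rw [hpair, sub_le_iff_le_add, div_le_iff₀ hp]
          linarith
        · simp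
      refine (Finset.sum_le_sum fun s _ => h2 s).trans ?_
      rw [← Finset.sum_mul, Finset.sum_ite_mem, Finset.univ_inter, Finset.sum_const,
        nsmul_eq_mul, ← hN]
      rw [mul_one_div_cancel hN0.ne', one_mul]
  obtain ⟨p, ⟨hp1, hp2⟩, hp3⟩ := minimax hn hε.le M hM h
  refine ⟨S, fun w => if hw : w ∈ S then p ⟨w, hw⟩ else 0, fun w hw => (hmem w).1 hw, ?_, ?_, ?_⟩
  · intro w hw
    simp only [hw, dif_pos]
    exact hp1 ⟨w, hw⟩
  · rw [← Finset.sum_coe_sort, ← hp2]
    refine Finset.sum_congr rfl fun s _ => ?_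
    simp
  · intro H hH
    have h1 := hp3 H hH
    have h2 : ∑ s, p s * pair (M s) H = ∑ w ∈ S, (if hw : w ∈ S then p ⟨w, hw⟩ else 0) *
        (dotProduct (vec A w) (H.mulVec (vec A w)) / normSq A w) - H.trace / n := by
      have h3 : ∑ s, p s * pair (M s) H = ∑ s : S, (p s * (dotProduct (vec A s.1)
          (H.mulVec (vec A s.1)) / normSq A s.1) - p s * (H.trace / n)) := by
        refine Finset.sum_congr rfl fun s _ => ?_
        rw [hpair]; ring
      rw [h3, Finset.sum_sub_distrib, ← Finset.sum_mul, hp2, one_mul]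
      congr 1
      rw [← Finset.sum_coe_sort S]
      refine Finset.sum_congr rfl fun s _ => ?_
      simp
    rw [← h2]
    exact h1

end Pool.Agent.Lib.MP_ef2672_gt_Eutaxy
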