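import Pool.Agent.Lib.MP_ef2672_gt_Eutaxy.Perturb

/-!
A minimax lemma for weights and symmetric test matrices.
-/

namespace Pool.Agent.Lib.MP_ef2672_gt_Eutaxy

open Pool.Agent.Lib.MP_ef2672_gt_Tauber

/-- Probability weights bounded by `b`. -/
def weights (S : Type*) [Fintype S] (b : ℝ) : Set (S → ℝ) :=
  {p | (∀ s, 0 ≤ p s ∧ p s ≤ b) ∧ ∑ s, p s = 1}

lemma weights_convex (S : Type*) [Fintype S] (b : ℝ) : Convex ℝ (weights S b) := by
  rintro p ⟨hp1, hp2⟩ q ⟨hq1, hq2⟩ a c ha hc hac
  refine ⟨fun s => ⟨?_, ?_⟩, ?_⟩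
  · have h1 := (hp1 s).1
    have h2 := (hq1 s).1
    simp only [Pi.add_apply, Pi.smul_apply, smul_eq_mul]
    positivity
  · have h1 := mul_le_mul_of_nonneg_left (hp1 s).2 ha
    have h2 := mul_le_mul_of_nonneg_left (hq1 s).2 hc
    simp only [Pi.add_apply, Pi.smul_apply, smul_eq_mul]
    calc a * p s + c * q s ≤ a * b + c * b := add_le_add h1 h2
      _ = (a + c) * b := by ring
      _ = b := by rw [hac, one_mul]
  · simp only [Pi.add_apply, Pi.smul_apply, smul_eq_mul]
    rw [Finset.sum_add_distrib, ← Finset.mul_sum, ← Finset.mul_sum, hp2, hq2]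
    linarith

lemma weights_compact (S : Type*) [Fintype S] (b : ℝ) : IsCompact (weights S b) := by
  have h1 : IsCompact (Set.pi Set.univ fun _ : S => Set.Icc (0 : ℝ) b) :=
    isCompact_univ_pi fun _ => isCompact_Icc
  refine h1.of_isClosed_subset ?_ ?_
  · have h2 : IsClosed {p : S → ℝ | ∀ s, 0 ≤ p s ∧ p s ≤ b} := by
      have : {p : S → ℝ | ∀ s, 0 ≤ p s ∧ p s ≤ b} = ⋂ s, {p : S → ℝ | 0 ≤ p s ∧ p s ≤ b} := by
        ext p; simp
      rw [this]
      refine isClosed_iInter fun s => ?_
      exact (isClosed_le continuous_const (continuous_apply s)).inter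
        (isClosed_le (continuous_apply s) continuous_const)
    exact h2.inter
      (isClosed_eq (continuous_finsetSum _ fun s _ => continuous_apply s) continuous_const)
  · rintro p hp s _
    exact hp.1 s

/-- The pairing of two matrices. -/
noncomputable def pair {n : ℕ} (X H : Fin n → Fin n → ℝ) : ℝ := ∑ i, ∑ j, X i j * H i j

lemma pair_add_left {n : ℕ} (X Y H : Fin n → Fin n → ℝ) :
    pair (X + Y) H = pair X H + pair Y H := by
  simp only [pair, Pi.add_apply, add_mul, Finset.sum_add_distrib]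

lemma pair_smul_left {n : ℕ} (a : ℝ) (X H : Fin n → Fin n → ℝ) :
    pair (a • X) H = a * pair X H := by
  simp only [pair, Pi.smul_apply, smul_eq_mul, Finset.mul_sum, mul_assoc]

lemma pair_smul_right {n : ℕ} (a : ℝ) (X H : Fin n → Fin n → ℝ) :
    pair X (a • H) = a * pair X H := by
  simp only [pair, Pi.smul_apply, smul_eq_mul, Finset.mul_sum]
  refine Finset.sum_congr rfl fun i _ => Finset.sum_congr rfl fun j _ => ?_
  ring

lemma pair_sum_left {n : ℕ} {S : Type*} [Fintype S] (p : S → ℝ)
    (M : S → Fin n → Fin n → ℝ) (H : Fin n → Fin n → ℝ) :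
    pair (∑ s, p s • M s) H = ∑ s, p s * pair (M s) H := by
  classical
  have : ∀ T : Finset S, pair (∑ s ∈ T, p s • M s) H = ∑ s ∈ T, p s * pair (M s) H := by
    intro T
    induction T using Finset.induction_on with
    | empty => simp [pair]
    | insert a T ha ih =>
      rw [Finset.sum_insert ha, Finset.sum_insert ha, pair_add_left, pair_smul_left, ih]
  exact this Finset.univ

lemma pair_continuous {n : ℕ} (H : Fin n → Fin n → ℝ) :
    Continuous fun X : Fin n → Fin n → ℝ => pair X H := by
  unfold pair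
  fun_prop

lemma quad_eq_pair {n : ℕ} (x : Fin n → ℝ) (H : Matrix (Fin n) (Fin n) ℝ) :
    dotProduct x (H.mulVec x) = pair (fun i j => x i * x j) H := by
  simp only [pair, dotProduct, Matrix.mulVec, Finset.mul_sum]
  refine Finset.sum_congr rfl fun i _ => Finset.sum_congr rfl fun j _ => ?_
  ring

lemma clm_eq_pair {n : ℕ} (f : (Fin n → Fin n → ℝ) →L[ℝ] ℝ) :
    ∃ F : Fin n → Fin n → ℝ, ∀ X, f X = pair X F := by
  classical
  refine ⟨fun i j => f (Pi.single i (Pi.single j 1)), fun X => ?_⟩
  have hX : X = ∑ i, ∑ j, X i j • (Pi.single i (Pi.single j (1 : ℝ)) : Fin n → Fin n → ℝ) := by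
    ext a b
    simp only [Finset.sum_apply, Pi.smul_apply, smul_eq_mul]
    rw [Finset.sum_eq_single a, Finset.sum_eq_single b]
    · simp
    · intro j _ hj
      simp [hj.symm]
    · simp
    · intro i _ hi
      refine Finset.sum_eq_zero fun j _ => ?_
      simp [hi.symm]
    · simp
  conv_lhs => rw [hX]
  simp only [map_sum, map_smul, smul_eq_mul, pair]

lemma unitSym_neg {n : ℕ} {H : Matrix (Fin n) (Fin n) ℝ} (hH : H ∈ unitSym n) :
    -H ∈ unitSym n := by
  refine ⟨by rw [Matrix.transpose_neg, hH.1], fun x => ?_⟩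
  rw [Matrix.neg_mulVec, dotProduct_neg, abs_neg]
  exact hH.2 x

/-- The minimax lemma. -/
theorem minimax {n : ℕ} (hn : 0 < n) {S : Type*} [Fintype S] {b ε : ℝ} (hε : 0 ≤ ε)
    (M : S → Fin n → Fin n → ℝ) (hM : ∀ s i j, M s i j = M s j i)
    (h : ∀ H ∈ unitSym n, ∃ p ∈ weights S b, ∑ s, p s * pair (M s) H ≤ ε) :
    ∃ p ∈ weights S b, ∀ H ∈ unitSym n, |∑ s, p s * pair (M s) H| ≤ ε := by
  classical
  by_contra hcon
  push Not at hcon
  let Φ : (S → ℝ) → (Fin n → Fin n → ℝ) := fun p => ∑ s, p s • M s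
  have hΦ : ∀ p H, pair (Φ p) H = ∑ s, p s * pair (M s) H := fun p H => pair_sum_left p M H
  set C : Set (Fin n → Fin n → ℝ) := Φ '' weights S b with hC
  set D : Set (Fin n → Fin n → ℝ) := {X | ∀ H ∈ unitSym n, pair X H ≤ ε} with hD
  have hΦc : Continuous Φ := by
    refine continuous_finsetSum _ fun s _ => ?_
    exact (continuous_apply s).smul continuous_const
  have hCcomp : IsCompact C := (weights_compact S b).image hΦc
  have hCconv : Convex ℝ C := by
    rintro _ ⟨p, hp, rfl⟩ _ ⟨q, hq, rfl⟩ a c ha hc hac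
    refine ⟨a • p + c • q, weights_convex S b hp hq ha hc hac, ?_⟩
    simp only [Φ, Pi.add_apply, Pi.smul_apply, smul_eq_mul, add_smul, Finset.sum_add_distrib,
      mul_smul, ← Finset.smul_sum]
  have hDclosed : IsClosed D := by
    have : D = ⋂ H ∈ unitSym n, {X | pair X H ≤ ε} := by
      ext X; simp [hD]
    rw [this]
    exact isClosed_biInter fun H _ => isClosed_le (pair_continuous H) continuous_const
  have hDconv : Convex ℝ D := by
    intro X hX Y hY a c ha hc hac H hH
    rw [pair_add_left, pair_smul_left, pair_smul_left]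
    have h1 := mul_le_mul_of_nonneg_left (hX H hH) ha
    have h2 := mul_le_mul_of_nonneg_left (hY H hH) hc
    calc a * pair X H + c * pair Y H ≤ a * ε + c * ε := add_le_add h1 h2
      _ = (a + c) * ε := by ring
      _ = ε := by rw [hac, one_mul]
  have hdisj : Disjoint C D := by
    rw [Set.disjoint_left]
    rintro _ ⟨p, hp, rfl⟩ hX
    obtain ⟨H, hH, hlt⟩ := hcon p hp
    have h1 := hX H hH
    have h2 := hX (-H) (unitSym_neg hH)
    have h3 : pair (Φ p) (-H) = -pair (Φ p) H := by
      have := pair_smul_right (-1) (Φ p) H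
      rw [neg_one_mul] at this
      rw [← this]
      congr 1
      exact (neg_one_smul ℝ H).symm
    rw [h3] at h2
    rw [hΦ] at h1 h2
    exact absurd (abs_le.2 ⟨by linarith, h1⟩) (not_le.2 hlt)
  obtain ⟨f, u, v, hfC, huv, hfD⟩ :=
    geometric_hahn_banach_compact_closed hCconv hCcomp hDconv hDclosed hdisj
  obtain ⟨F, hF⟩ := clm_eq_pair f
  let H0 : Matrix (Fin n) (Fin n) ℝ := Matrix.of fun i j => -(F i j + F j i) / 2
  have hH0t : H0.transpose = H0 := by
    ext i j
    simp only [H0, Matrix.transpose_apply, Matrix.of_apply]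
    ring
  have hpairH0 : ∀ X : Fin n → Fin n → ℝ, (∀ i j, X i j = X j i) → pair X H0 = -f X := by
    intro X hX
    rw [hF]
    have h1 : pair X (fun i j => F j i) = pair X F := by
      unfold pair
      rw [Finset.sum_comm]
      refine Finset.sum_congr rfl fun i _ => Finset.sum_congr rfl fun j _ => ?_
      rw [hX]
    have h2 : pair X H0 = -(pair X F + pair X (fun i j => F j i)) / 2 := by
      unfold pair
      rw [← Finset.sum_add_distrib, neg_div, Finset.sum_div, ← Finset.sum_neg_distrib]
      refine Finset.sum_congr rfl fun i _ => ?_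
      rw [← Finset.sum_add_distrib, Finset.sum_div, ← Finset.sum_neg_distrib]
      refine Finset.sum_congr rfl fun j _ => ?_
      simp only [H0, Matrix.of_apply]
      ring
    rw [h2, h1]
    ring
  -- the values on `C`
  have hCval : ∀ p ∈ weights S b, -u < ∑ s, p s * pair (M s) H0 := by
    intro p hp
    have h1 := hfC (Φ p) ⟨p, hp, rfl⟩
    have h2 : pair (Φ p) H0 = -f (Φ p) := by
      apply hpairH0
      intro i j
      simp only [Φ, Finset.sum_apply, Pi.smul_apply, smul_eq_mul]
      exact Finset.sum_congr rfl fun s _ => by rw [hM]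
    rw [hΦ] at h2
    linarith
  -- the sphere
  set K : Set (Fin n → ℝ) := {x | dotProduct x x = 1} with hK
  have hKcomp : IsCompact K := by
    refine Metric.isCompact_of_isClosed_isBounded ?_ ?_
    · refine isClosed_eq ?_ continuous_const
      unfold dotProduct
      fun_prop
    · rw [isBounded_iff_forall_norm_le]
      refine ⟨1, fun x hx => ?_⟩
      rw [pi_norm_le_iff_of_nonneg zero_le_one]
      intro i
      rw [Real.norm_eq_abs, ← sq_le_one_iff_abs_le_one]
      have h1 : x i * x i ≤ dotProduct x x :=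
        Finset.single_le_sum (f := fun i => x i * x i) (fun j _ => mul_self_nonneg _)
          (Finset.mem_univ i)
      have h2 : dotProduct x x = 1 := hx
      nlinarith
  have hKne : K.Nonempty := by
    refine ⟨Pi.single ⟨0, hn⟩ 1, ?_⟩
    show dotProduct _ _ = (1 : ℝ)
    simp
  have hcont : Continuous fun x : Fin n → ℝ => |dotProduct x (H0.mulVec x)| := by
    refine Continuous.abs ?_
    unfold dotProduct Matrix.mulVec dotProduct
    fun_prop
  obtain ⟨x0, hx0, hmax⟩ := hKcomp.exists_isMaxOn hKne hcont.continuousOn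
  set lam : ℝ := |dotProduct x0 (H0.mulVec x0)| with hlam
  have hlam0 : 0 ≤ lam := abs_nonneg _
  have hbound : ∀ x : Fin n → ℝ, |dotProduct x (H0.mulVec x)| ≤ lam * dotProduct x x := by
    intro x
    rcases (dotProduct_self_nonneg' x).eq_or_lt with hz | hz
    · have : x = 0 := dotProduct_self_eq_zero.1 hz.symm
      rw [this]; simp
    · set r : ℝ := Real.sqrt (dotProduct x x) with hr
      have hr0 : 0 < r := Real.sqrt_pos.2 hz
      have hrr : r * r = dotProduct x x := Real.mul_self_sqrt hz.le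
      have hy : r⁻¹ • x ∈ K := by
        show dotProduct (r⁻¹ • x) (r⁻¹ • x) = 1
        rw [dotProduct_smul, smul_dotProduct, smul_eq_mul, smul_eq_mul, ← hrr]
        field_simp
      have h1 : |dotProduct (r⁻¹ • x) (H0.mulVec (r⁻¹ • x))| ≤ lam := hmax hy
      rw [Matrix.mulVec_smul, dotProduct_smul, smul_dotProduct, smul_eq_mul, smul_eq_mul,
        ← mul_assoc, abs_mul, abs_of_pos (by positivity : 0 < r⁻¹ * r⁻¹)] at h1
      rw [← hrr]
      have h2 : r⁻¹ * r⁻¹ * |dotProduct x (H0.mulVec x)| * (r * r) ≤ lam * (r * r) :=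
        mul_le_mul_of_nonneg_right h1 (by positivity)
      have h3 : r⁻¹ * r⁻¹ * |dotProduct x (H0.mulVec x)| * (r * r) =
          |dotProduct x (H0.mulVec x)| := by field_simp
      linarith
  -- a test matrix in `D`
  have hDval : ε * lam < -v := by
    let sg : ℝ := SignType.sign (dotProduct x0 (H0.mulVec x0))
    have hsg1 : |sg| ≤ 1 := by
      simp only [sg]
      rcases SignType.sign (dotProduct x0 (H0.mulVec x0)) with _ | _ | _ <;> simp
    have hsg2 : sg * dotProduct x0 (H0.mulVec x0) = lam := by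
      rw [hlam]; exact sign_mul_self _
    let Y : Fin n → Fin n → ℝ := (ε * sg) • fun i j => x0 i * x0 j
    have hY : Y ∈ D := by
      intro H hH
      rw [pair_smul_left, ← quad_eq_pair]
      have h1 := hH.2 x0
      have h2 : dotProduct x0 x0 = 1 := hx0
      rw [h2] at h1
      have h3 : sg * dotProduct x0 (H.mulVec x0) ≤ 1 := by
        refine (le_abs_self _).trans ?_
        rw [abs_mul]
        exact mul_le_one₀ hsg1 (abs_nonneg _) h1
      calc ε * sg * dotProduct x0 (H.mulVec x0) = ε * (sg * dotProduct x0 (H.mulVec x0)) := by ring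
        _ ≤ ε * 1 := mul_le_mul_of_nonneg_left h3 hε
        _ = ε := mul_one ε
    have h4 := hfD Y hY
    have h5 : pair Y H0 = -f Y := by
      apply hpairH0
      intro i j
      simp only [Y, Pi.smul_apply, smul_eq_mul]
      ring
    have h6 : pair Y H0 = ε * lam := by
      rw [pair_smul_left, ← quad_eq_pair, mul_assoc, hsg2]
    linarith
  have hu : 0 < -u := by nlinarith
  -- a scalar
  obtain ⟨κ, hκ, hκ1, hκ2⟩ : ∃ κ : ℝ, 0 < κ ∧ κ * lam ≤ 1 ∧ ε < κ * (-u) := by
    rcases hlam0.eq_or_lt with h0 | h0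
    · refine ⟨(ε + 1) / (-u), by positivity, by rw [← h0]; simp, ?_⟩
      rw [div_mul_cancel₀ _ hu.ne']
      linarith
    · refine ⟨1 / lam, by positivity, by rw [one_div_mul_cancel h0.ne'], ?_⟩
      rw [one_div, inv_mul_eq_div, lt_div_iff₀ h0]
      linarith
  have hmem : κ • H0 ∈ unitSym n := by
    refine ⟨by rw [Matrix.transpose_smul, hH0t], fun x => ?_⟩
    rw [Matrix.smul_mulVec, dotProduct_smul, smul_eq_mul, abs_mul, abs_of_pos hκ]
    calc κ * |dotProduct x (H0.mulVec x)| ≤ κ * (lam * dotProduct x x) :=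
          mul_le_mul_of_nonneg_left (hbound x) hκ.le
      _ = (κ * lam) * dotProduct x x := by ring
      _ ≤ 1 * dotProduct x x := mul_le_mul_of_nonneg_right hκ1 (dotProduct_self_nonneg' x)
      _ = dotProduct x x := one_mul _
  obtain ⟨p, hp, hle⟩ := h _ hmem
  have h1 := hCval p hp
  have h2 : ∑ s, p s * pair (M s) (κ • H0) = κ * ∑ s, p s * pair (M s) H0 := by
    rw [Finset.mul_sum]
    refine Finset.sum_congr rfl fun s _ => ?_
    have := pair_smul_right κ (M s) H0
    rw [show pair (M s) (κ • H0) = κ * pair (M s) H0 from this]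
    ring
  rw [h2] at hle
  have h3 := mul_lt_mul_of_pos_left h1 hκ
  linarith

end Pool.Agent.Lib.MP_ef2672_gt_Eutaxy
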