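import Pool.Agent.Lib.MP_ef2672_gt_Tauber.Expurgate

/-!
Perturbations of lattices of trace zero.
-/

namespace Pool.Agent.Lib.MP_ef2672_gt_Eutaxy

open Pool.Agent.Lib.MP_ef2672_gt_Tauber

/-- The vector `A w` of the lattice `A ℤⁿ`. -/
noncomputable def vec {n : ℕ} (A : Matrix (Fin n) (Fin n) ℝ) (w : Fin n → ℤ) : Fin n → ℝ :=
  A.mulVec (fun j => (w j : ℝ))

/-- The symmetric matrices `H` with `|xᵀ H x| ≤ |x|²` for all `x`. -/
def unitSym (n : ℕ) : Set (Matrix (Fin n) (Fin n) ℝ) :=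
  {H | H.transpose = H ∧ ∀ x : Fin n → ℝ, |dotProduct x (H.mulVec x)| ≤ dotProduct x x}

lemma normSq_eq {n : ℕ} (A : Matrix (Fin n) (Fin n) ℝ) (w : Fin n → ℤ) :
    normSq A w = dotProduct (vec A w) (vec A w) := by
  unfold normSq vec
  simp only [dotProduct]
  exact Finset.sum_congr rfl fun i _ => sq _

lemma dotProduct_self_nonneg' {n : ℕ} (x : Fin n → ℝ) : 0 ≤ dotProduct x x :=
  Finset.sum_nonneg fun _ _ => mul_self_nonneg _

lemma det_le_exp {n : ℕ} (Q : Matrix (Fin n) (Fin n) ℝ) (hQ : Q.PosSemidef) :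
    Q.det ≤ Real.exp (Q.trace - n) := by
  have h1 := hQ.isHermitian.det_eq_prod_eigenvalues
  have h2 := hQ.isHermitian.trace_eq_sum_eigenvalues
  simp only [RCLike.ofReal_real_eq_id, id] at h1 h2
  rw [h1, h2]
  have h3 : (∑ i, hQ.isHermitian.eigenvalues i) - n =
      ∑ i : Fin n, (hQ.isHermitian.eigenvalues i - 1) := by
    rw [Finset.sum_sub_distrib]; simp
  rw [h3, Real.exp_sum]
  refine Finset.prod_le_prod (fun i _ => hQ.eigenvalues_nonneg i) fun i _ => ?_
  have := Real.add_one_le_exp (hQ.isHermitian.eigenvalues i - 1)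
  linarith

/-- Perturbation by a symmetric matrix of trace zero. -/
lemma exists_perturb {n : ℕ} (A : Matrix (Fin n) (Fin n) ℝ) (hA : A.det ≠ 0)
    (H : Matrix (Fin n) (Fin n) ℝ) (hH : H.transpose = H)
    (hb : ∀ x : Fin n → ℝ, |dotProduct x (H.mulVec x)| ≤ 2 * dotProduct x x)
    (htr : H.trace = 0) {t : ℝ} (ht0 : 0 ≤ t) (ht : 2 * t < 1) :
    ∃ A' : Matrix (Fin n) (Fin n) ℝ, A'.det ≠ 0 ∧ |A'.det| ≤ |A.det| ∧
      ∀ w : Fin n → ℤ, normSq A' w =
        normSq A w + t * dotProduct (vec A w) (H.mulVec (vec A w)) := by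
  set Q : Matrix (Fin n) (Fin n) ℝ := 1 + t • H with hQ
  have hquad : ∀ x : Fin n → ℝ, dotProduct x (Q.mulVec x) =
      dotProduct x x + t * dotProduct x (H.mulVec x) := by
    intro x
    rw [hQ, Matrix.add_mulVec, Matrix.one_mulVec, dotProduct_add, Matrix.smul_mulVec,
      dotProduct_smul, smul_eq_mul]
  have hlow : ∀ x : Fin n → ℝ, (1 - 2 * t) * dotProduct x x ≤ dotProduct x (Q.mulVec x) := by
    intro x
    rw [hquad]
    have h1 := (abs_le.1 (hb x)).1
    nlinarith
  have hherm : Q.IsHermitian := by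
    rw [Matrix.IsHermitian, Matrix.conjTranspose_eq_transpose_of_trivial, hQ,
      Matrix.transpose_add, Matrix.transpose_one, Matrix.transpose_smul, hH]
  have hpd : Q.PosDef := by
    refine Matrix.PosDef.of_dotProduct_mulVec_pos hherm fun x hx => ?_
    rw [star_trivial]
    refine lt_of_lt_of_le ?_ (hlow x)
    have : 0 < dotProduct x x := by
      have h1 := dotProduct_self_nonneg' x
      refine lt_of_le_of_ne h1 fun h => hx ?_
      exact dotProduct_self_eq_zero.1 h.symm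
    have h2 : 0 < 1 - 2 * t := by linarith
    positivity
  obtain ⟨C, hC⟩ : ∃ C : Matrix (Fin n) (Fin n) ℝ, Q = C.conjTranspose * C := by
    open scoped MatrixOrder ComplexOrder in
    obtain ⟨C, hC⟩ := CStarAlgebra.nonneg_iff_eq_star_mul_self.mp hpd.posSemidef.nonneg
    exact ⟨C, hC⟩
  rw [Matrix.conjTranspose_eq_transpose_of_trivial] at hC
  have hdetC : C.det ^ 2 = Q.det := by
    rw [hC, Matrix.det_mul, Matrix.det_transpose, sq]
  have hQ1 : Q.det ≤ 1 := by
    refine (det_le_exp Q hpd.posSemidef).trans ?_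
    have : Q.trace = n := by
      rw [hQ, Matrix.trace_add, Matrix.trace_smul, htr, Matrix.trace_one]
      simp
    rw [this, sub_self, Real.exp_zero]
  have hC1 : |C.det| ≤ 1 := by
    rw [← sq_le_one_iff_abs_le_one, hdetC]
    exact hQ1
  have hC0 : C.det ≠ 0 := by
    intro h
    have := hpd.det_pos
    rw [← hdetC, h] at this
    simp at this
  refine ⟨C * A, ?_, ?_, ?_⟩
  · rw [Matrix.det_mul]; exact mul_ne_zero hC0 hA
  · rw [Matrix.det_mul, abs_mul]
    exact mul_le_of_le_one_left (abs_nonneg _) hC1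
  · intro w
    rw [normSq_eq, normSq_eq, ← hquad]
    unfold vec
    rw [hC, ← Matrix.mulVec_mulVec, ← Matrix.mulVec_mulVec, Matrix.dotProduct_mulVec _ C.transpose,
      Matrix.vecMul_transpose]

end Pool.Agent.Lib.MP_ef2672_gt_Eutaxy
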